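import Pool.Agent.H57.Wilde.Full

/-!
# Element orders versus character degrees at non-vanishing points

Let `χ` be an irreducible complex character of a finite group `G` and `x` an element with
`χ(x) ≠ 0`. Then the order of `x` divides the integer `|G| / χ(1)`.
-/

namespace Pool.Agent.Results.MP_d08a69_al.WildeConjecture

open Representation

/-- The degree of an irreducible character divides the order of the group, and the order of every
element at which the character does not vanish divides the quotient. -/
theorem result {G V : Type*} [Group G] [Finite G] [AddCommGroup V] [Module ℂ V]
    [FiniteDimensional ℂ V] (ρ : Representation ℂ G V) [ρ.IsIrreducible] (x : G)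
    (hx : ρ.character x ≠ 0) :
    Module.finrank ℂ V ∣ Nat.card G ∧ orderOf x ∣ Nat.card G / Module.finrank ℂ V :=
  ⟨Pool.Agent.H42.Wilde.finrank_dvd_card ρ, Pool.Agent.H57.Wilde.wilde ρ x hx⟩

end Pool.Agent.Results.MP_d08a69_al.WildeConjecture
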